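import Mathlib
import Pool.Agent.Lib.helper4.Ladder

set_option autoImplicit false

namespace Pool.Agent.Results.MP_1c9ee6_al.NoSuitable

open Set Filter Topology
open Pool.Agent.Lib.helper4.Ladder

/-- A gyrogroup structure on `X`: operation `op` (`⊕`), left identity `one`, left inverses
`neg` (`⊖`), and gyrations `gyr a b`, which are automorphisms of `(X, ⊕)` satisfying the left
gyroassociative law and the left loop property. -/
structure Gyro (X : Type) where
  op : X → X → X
  one : X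
  neg : X → X
  gyr : X → X → X ≃ X
  one_op : ∀ a, op one a = a
  neg_op : ∀ a, op (neg a) a = one
  gyr_op : ∀ a b x y, gyr a b (op x y) = op (gyr a b x) (gyr a b y)
  gyr_assoc : ∀ a b c, op a (op b c) = op (op a b) (gyr a b c)
  loop : ∀ a b, gyr a b = gyr (op a b) b

/-- `H` is a subgyrogroup: nonempty and closed under `⊖` and `⊕`. -/
def IsSub {X : Type} (Γ : Gyro X) (H : Set X) : Prop :=
  H.Nonempty ∧ (∀ a ∈ H, Γ.neg a ∈ H) ∧ ∀ a ∈ H, ∀ b ∈ H, Γ.op a b ∈ H

/-- The subgyrogroup generated by `S`: the smallest subgyrogroup containing `S`. -/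
def generated {X : Type} (Γ : Gyro X) (S : Set X) : Set X := ⋂₀ {H | IsSub Γ H ∧ S ⊆ H}

/-- `(X, Γ)` is a strongly topological gyrogroup: `⊕` and `⊖` are continuous, and the identity
has a neighbourhood base of sets invariant under all gyrations. -/
def Strongly {X : Type} [TopologicalSpace X] (Γ : Gyro X) : Prop :=
  Continuous (fun p : X × X => Γ.op p.1 p.2) ∧ Continuous Γ.neg ∧
    ∃ 𝒰 : Set (Set X), (𝓝 Γ.one).HasBasis (· ∈ 𝒰) id ∧ ∀ U ∈ 𝒰, ∀ x y, Γ.gyr x y '' U = U

/-- `S` is a suitable set for the subgyrogroup `K` with the subspace topology: `S ⊆ K`, `S` is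
discrete, `S ∪ {1}` is closed in `K`, and the subgyrogroup generated by `S` is dense in `K`. -/
def Suitable {X : Type} [TopologicalSpace X] (Γ : Gyro X) (K S : Set X) : Prop :=
  S ⊆ K ∧ IsDiscrete S ∧ IsClosed (Subtype.val ⁻¹' insert Γ.one S : Set K) ∧
    Dense (Subtype.val ⁻¹' generated Γ S : Set K)

theorem result : ∃ (X : Type) (_ : TopologicalSpace X) (_ : LinearOrder X) (Γ : Gyro X),
    OrderTopology X ∧ Strongly Γ ∧ (∃ S, Suitable Γ univ S) ∧
      ∃ H, IsSub Γ H ∧ ¬ ∃ S, Suitable Γ H S := by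
  let X := (G ×ₗ ℤ) ×ₗ G
  let _ : TopologicalSpace G := Preorder.topology G
  have : OrderTopology G := ⟨rfl⟩
  let _ : TopologicalSpace X := Preorder.topology X
  have oX : OrderTopology X := ⟨rfl⟩
  let Γ : Gyro X :=
    { op := (· + ·), one := 0, neg := fun a => -a, gyr := fun _ _ => Equiv.refl _
      one_op := zero_add, neg_op := neg_add_cancel, gyr_op := fun _ _ _ _ => rfl
      gyr_assoc := fun a b c => (add_assoc a b c).symm, loop := fun _ _ => rfl }
  let f : G ×ₗ ℤ → G := fun a => if (ofLex a).2 = 1 then (ofLex a).1 else 0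
  let j : G → X := fun y => toLex (0, y)
  have hj : IsEmbedding j := by
    refine StrictMono.isEmbedding_of_ordConnected
      (fun a b h => Prod.Lex.toLex_lt_toLex.2 (Or.inr ⟨rfl, h⟩)) ⟨?_⟩
    rintro _ ⟨a, rfl⟩ _ ⟨b, rfl⟩ ⟨c, d⟩ ⟨h1, h2⟩
    have e : c = 0 := le_antisymm (Prod.Lex.monotone_fst _ _ h2) (Prod.Lex.monotone_fst _ _ h1)
    exact ⟨d, by rw [e]; rfl⟩
  refine ⟨X, inferInstance, inferInstance, Γ, oX, ⟨continuous_add, continuous_neg, _,
    (𝓝 0).basis_sets, fun U _ _ _ => image_id U⟩, ⟨{p | (ofLex p).2 = f (ofLex p).1}, ?_⟩,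
    range j, ⟨range_nonempty _, ?_, ?_⟩, ?_⟩
  · have key := (isClosed_and_discrete_iff (S := {p : X | (ofLex p).2 = f (ofLex p).1})).2
      fun p => by
        have h1 : {q : X | (ofLex q).1 = (ofLex p).1} ∈ 𝓝 p := by
          have a := e_pos (Classical.arbitrary _)
          refine mem_of_superset (Ioo_mem_nhds (a := toLex ((ofLex p).1, (ofLex p).2 - e _))
            (b := toLex ((ofLex p).1, (ofLex p).2 + e _))
            (Prod.Lex.toLex_lt_toLex.2 (Or.inr ⟨rfl, sub_lt_self _ a⟩))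
            (Prod.Lex.toLex_lt_toLex.2 (Or.inr ⟨rfl, lt_add_of_pos_right _ a⟩))) fun q hq => ?_
          have b1 := Prod.Lex.monotone_fst _ _ hq.2.le
          have b2 := Prod.Lex.monotone_fst _ _ hq.1.le
          exact le_antisymm b1 b2
        have h2 : ({toLex ((ofLex p).1, f (ofLex p).1)} : Set X)ᶜ ∈ 𝓝[≠] p :=
          nhdsNE_le_cofinite p (finite_singleton _).compl_mem_cofinite
        refine disjoint_principal_right.2
          (mem_of_superset (inter_mem (mem_nhdsWithin_of_mem_nhds h1) h2) fun q hq hs => hq.2 ?_)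
        exact Prod.ext hq.1 (hs.trans (congrArg f hq.1))
    refine ⟨subset_univ _, key.2, ?_, fun x => subset_closure ?_⟩
    · rw [insert_eq_of_mem]
      · exact key.1.preimage continuous_subtype_val
      · show (0 : G) = if (0 : ℤ) = 1 then _ else 0
        simp
    · rintro K ⟨⟨-, k1, k2⟩, k3⟩
      have m : ∀ a, (toLex (a, f a) : X) ∈ K := fun a => k3 rfl
      have m2 : ∀ y, j y ∈ K := fun y => by
        convert k2 _ (k2 _ (m (toLex (y, 1))) _ (k1 _ (m (toLex (0, 1))))) _
          (k1 _ (m (toLex (y, 0)))) using 1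
        refine Prod.ext (Prod.ext ?_ ?_) ?_
        · show (0 : G) = y + -0 + -y
          simp
        · show (0 : ℤ) = 1 + -1 + -0
          simp
        · show y = (if (1 : ℤ) = 1 then y else 0) + -(if (1 : ℤ) = 1 then 0 else 0) +
            -(if (0 : ℤ) = 1 then y else 0)
          simp
      convert k2 _ (m (ofLex x.1).1) _ (m2 ((ofLex x.1).2 - f (ofLex x.1).1)) using 1
      exact Prod.ext (add_zero _).symm (add_sub_cancel _ _).symm
  · rintro _ ⟨a, rfl⟩
    exact ⟨-a, Prod.ext neg_zero.symm rfl⟩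
  · rintro _ ⟨a, rfl⟩ _ ⟨b, rfl⟩
    exact ⟨a + b, Prod.ext (add_zero _).symm rfl⟩
  · rintro ⟨S, h0, h1, h2, h3⟩
    refine core (K := G) ph ph_range basis 0 rfl (j ⁻¹' S) (j ⁻¹' generated Γ S)
      (h1.preimage hj.continuous.continuousOn hj.injective) ?_ ?_ fun d hd => ?_
    · convert h2.preimage hj.toHomeomorph.continuous using 1
      ext y
      exact or_congr_left (hj.injective.eq_iff (b := 0)).symm
    · exact h3.preimage hj.toHomeomorph.isOpenMap
    · have := hd (j '' {y | ph y ∈ AddSubgroup.closure (ph '' (j ⁻¹' S))}) 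
        ⟨⟨⟨_, 0, (AddSubgroup.closure (ph '' (j ⁻¹' S))).zero_mem, rfl⟩, ?_, ?_⟩, fun s hs => ?_⟩
      · obtain ⟨y, hy, e⟩ := this
        exact hj.injective e ▸ hy
      · rintro _ ⟨a, ha, rfl⟩
        exact ⟨-a, (AddSubgroup.closure (ph '' (j ⁻¹' S))).neg_mem ha, Prod.ext neg_zero.symm rfl⟩
      · rintro _ ⟨a, ha, rfl⟩ _ ⟨b, hb, rfl⟩
        exact ⟨a + b, (AddSubgroup.closure (ph '' (j ⁻¹' S))).add_mem ha hb,
          Prod.ext (add_zero _).symm rfl⟩
      · obtain ⟨y, rfl⟩ := h0 hs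
        exact ⟨y, AddSubgroup.subset_closure ⟨y, hs, rfl⟩, rfl⟩

end Pool.Agent.Results.MP_1c9ee6_al.NoSuitable
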